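import Pool.Agent.Y448.CB.Trg2

/-!
# The generic trace formula
-/

set_option autoImplicit false

namespace Pool.Agent.Y448.CB

open Finset Pool.Agent.Y472 Matrix

section

variable {N : ℕ} {w l : ℂ}

/-- the matrix of the product of the twist regions -/
noncomputable def PM (N : ℕ) (w l : ℂ) (D : ℕ) (ls : List (ℤ × ℤ)) : Matrix (Fin N) (Fin N) ℂ :=
  (ls.map fun p => MA N w l p.1 * pI N D * MB N w l D p.2 * pI N D).prod

/-- the action of the twist regions -/
theorem act_tw (h1 : S_SIG1) (h2 : S_SIG2) (h3 : S_SIGT) (h4 : S_GD3) (h5 : S_HATM) (h6 : S_TH)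
    (h7 : S_NIL) (hw : Rt N w) (hw0 : w ≠ 0) (hl : Gl l)
    (hA : ∀ (a : ℤ) (D i : ℕ), D < i + N → i < N →
      hat w l (L12 (sz w l a)) (fb N w l D i) = ∑ j ∈ Ico i N, gd w l a i j • fb N w l D j)
    (hB : ∀ (a : ℤ) (D i : ℕ), D < i + N → i < N →
      hat w l (L23 (sz w l a)) (fb N w l D i) =
        ∑ j ∈ range (i + 1), ((∏ t ∈ Ioc j i, ph w l D t) * gd w l a j i) • fb N w l D j)
    (D : ℕ) (ls : List (ℤ × ℤ)) (c : Fin N → ℂ) :
    hat w l (tw w l ls) (FF N w l D (pI N D *ᵥ c)) =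
      FF N w l D (pI N D *ᵥ (PM N w l D ls *ᵥ c)) := by
  induction ls generalizing c with
  | nil =>
    change Th w l (FF N w l D (pI N D *ᵥ c)) 0 = _
    rw [(h6 h7 N w l hw hl).2.1]
    unfold PM
    rw [List.map_nil, List.prod_nil, one_mulVec]
  | cons p ls ih =>
    have g1 := (h4 N w l hw hl.ne _ (gd_sz h1 h2 h3 hw hw0 hl.ne p.1)).1
    have g2 := (h4 N w l hw hl.ne _ (gd_sz h1 h2 h3 hw hw0 hl.ne p.2)).2
    have g3 := gd3_tw h1 h2 h3 h4 hw hw0 hl.ne ls
    have e1 : tw w l (p :: ls) = L12 (sz w l p.1) * (L23 (sz w l p.2) * tw w l ls) := by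
      unfold tw
      rw [List.map_cons, List.prod_cons, mul_assoc]
    have e2 : PM N w l D (p :: ls) =
        MA N w l p.1 * pI N D * MB N w l D p.2 * pI N D * PM N w l D ls := by
      unfold PM
      rw [List.map_cons, List.prod_cons]
    rw [e1, e2, (h5 h6 h7 N w l hw hl _ _ g1 (gd3_mul g2 g3)).1,
      (h5 h6 h7 N w l hw hl _ _ g2 g3).1]
    rw [Module.End.mul_apply, Module.End.mul_apply, ih, act_B hw hB, act_A hA]
    simp only [mulVec_mulVec, ← mul_assoc]

/-- the action of the whole operator on the split basis -/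
theorem act_all (h1 : S_SIG1) (h2 : S_SIG2) (h3 : S_SIGT) (h4 : S_GD3) (h5 : S_HATM) (h6 : S_TH)
    (h7 : S_NIL) (hw : Rt N w) (hw0 : w ≠ 0) (hl : Gl l)
    (hA : ∀ (a : ℤ) (D i : ℕ), D < i + N → i < N →
      hat w l (L12 (sz w l a)) (fb N w l D i) = ∑ j ∈ Ico i N, gd w l a i j • fb N w l D j)
    (hB : ∀ (a : ℤ) (D i : ℕ), D < i + N → i < N →
      hat w l (L23 (sz w l a)) (fb N w l D i) =
        ∑ j ∈ range (i + 1), ((∏ t ∈ Ioc j i, ph w l D t) * gd w l a j i) • fb N w l D j)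
    (hF : ∀ (m : ℤ) (x : V2) (D : ℕ), x ∈ T2 N →
    (∀ a b, a + b ≠ D → x a b = 0) → hat w l (fullt w l m) x = ta w l D ^ m • x)
    (D : ℕ) (ls : List (ℤ × ℤ)) (m : ℤ) (i : Fin N) (hi : (i : ℕ) ≤ D ∧ D < i + N) :
    hat w l (fullt w l m * tw w l ls) (fb N w l D i) =
      ta w l D ^ m • ∑ j : Fin N, (pI N D * PM N w l D ls) j i • fb N w l D j := by
  have g3 := gd3_tw h1 h2 h3 h4 hw hw0 hl.ne ls
  have g4 := gd3_fullt h1 h2 h3 h4 hw hw0 hl.ne m
  have e0 : fb N w l D i = FF N w l D (pI N D *ᵥ Pi.single i 1) := by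
    rw [FF_apply, sum_eq_single i]
    · rw [pI_mulVec, if_pos hi, Pi.single_eq_same, one_smul]
    · intro j _ hj
      rw [pI_mulVec, Pi.single_eq_of_ne hj]
      simp
    · simp
  rw [(h5 h6 h7 N w l hw hl _ _ g4 g3).1, Module.End.mul_apply, e0,
    act_tw h1 h2 h3 h4 h5 h6 h7 hw hw0 hl hA hB, hF m _ D]
  · congr 1
    rw [FF_apply, mulVec_mulVec]
    refine sum_congr rfl fun j _ => ?_
    rw [mulVec_single_one]
    rfl
  · rw [FF_apply]
    exact Submodule.sum_mem _ fun j _ => Submodule.smul_mem _ _ (fb_T2 D j)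
  · intro a b hab
    rw [FF_apply]
    have : (∑ j : Fin N, (pI N D *ᵥ PM N w l D ls *ᵥ Pi.single i 1) j • fb N w l D j) a b =
        ∑ j : Fin N, ((pI N D *ᵥ PM N w l D ls *ᵥ Pi.single i 1) j • fb N w l D j) a b := by
      rw [Finset.sum_apply, Finset.sum_apply]
    rw [this]
    refine sum_eq_zero fun j _ => ?_
    change _ * fb N w l D j a b = 0
    rw [fb_H2 D j a b hab, mul_zero]

/-- expansion in the standard basis -/
theorem expand {x : V2} (hx : x ∈ T2 N) :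
    x = ∑ p : Fin N × Fin N, x p.1 p.2 • dl p.1 p.2 := by
  funext a b
  have e : (∑ p : Fin N × Fin N, x p.1 p.2 • dl p.1 p.2) a b =
      ∑ p : Fin N × Fin N, x p.1 p.2 * (if a = p.1 ∧ b = p.2 then 1 else 0) := by
    rw [Finset.sum_apply, Finset.sum_apply]
    rfl
  rw [e]
  by_cases h : a < N ∧ b < N
  · rw [sum_eq_single (⟨a, h.1⟩, ⟨b, h.2⟩)]
    · simp
    · intro p _ hp
      rw [if_neg, mul_zero]
      intro hab
      apply hp
      ext
      · exact hab.1.symm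
      · exact hab.2.symm
    · simp
  · rw [hx a b (by omega)]
    symm
    refine sum_eq_zero fun p _ => ?_
    rw [if_neg, mul_zero]
    intro hab
    apply h
    rw [hab.1, hab.2]
    exact ⟨p.1.2, p.2.2⟩

theorem pI_mul_apply (D : ℕ) (P : Matrix (Fin N) (Fin N) ℂ) (i j : Fin N) :
    (pI N D * P) i j = if (i : ℕ) ≤ D ∧ D < i + N then P i j else 0 := by
  unfold pI
  rw [diagonal_mul]
  split_ifs <;> simp

theorem sum_fin_eq (j D : ℕ) (f : ℂ) :
    ∑ t : Fin N, (if j + (t : ℕ) = D then f else 0) = if j ≤ D ∧ D < j + N then f else 0 := by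
  by_cases h : j ≤ D ∧ D < j + N
  · rw [if_pos h, sum_eq_single ⟨D - j, by omega⟩]
    · rw [if_pos]
      change j + (D - j) = D
      omega
    · intro t _ ht
      rw [if_neg]
      intro h'
      apply ht
      ext
      change (t : ℕ) = D - j
      omega
    · simp
  · rw [if_neg h]
    refine sum_eq_zero fun t _ => ?_
    rw [if_neg]
    have := t.2
    omega

/-- the trace in the split bases -/
theorem trace_split (X : V2 →ₗ[ℂ] V2) (κ : ℕ → ℂ) (τ : ℕ → ℂ)
    (P : ℕ → Matrix (Fin N) (Fin N) ℂ)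
    (hdet : (Matrix.det fun p p' : Fin N × Fin N => fb N w l (p'.1 + p'.2) p'.1 p.1 p.2) ≠ 0)
    (hX : ∀ (D : ℕ) (i : Fin N), (i : ℕ) ≤ D ∧ D < i + N →
      X (fb N w l D i) = τ D • ∑ j : Fin N, (pI N D * P D) j i • fb N w l D j) :
    ∑ q ∈ range N, ∑ s ∈ range N, κ (q + s) * X (dl q s) q s =
      ∑ D ∈ range (2 * N - 1), κ D * τ D * (pI N D * P D).trace := by
  let A : Matrix (Fin N × Fin N) (Fin N × Fin N) ℂ :=
    fun p p' => κ (p.1 + p.2) * X (dl p'.1 p'.2) p.1 p.2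
  let B : Matrix (Fin N × Fin N) (Fin N × Fin N) ℂ :=
    fun p p' => fb N w l (p'.1 + p'.2) p'.1 p.1 p.2
  let C : Matrix (Fin N × Fin N) (Fin N × Fin N) ℂ :=
    fun p'' p' => if (p''.1 : ℕ) + p''.2 = p'.1 + p'.2 then
      κ (p'.1 + p'.2) * τ (p'.1 + p'.2) * (pI N (p'.1 + p'.2) * P (p'.1 + p'.2)) p''.1 p'.1 else 0
  have hAB : A * B = B * C := by
    ext p p'
    rw [mul_apply, mul_apply]
    set D : ℕ := p'.1 + p'.2 with hD
    have hb : (p'.1 : ℕ) ≤ D ∧ D < p'.1 + N := ⟨by omega, by have := p'.2.2; omega⟩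
    have e1 : ∑ p'' : Fin N × Fin N, A p p'' * B p'' p' =
        κ (p.1 + p.2) * X (fb N w l D p'.1) p.1 p.2 := by
      conv_rhs => rw [expand (fb_T2 (w := w) (l := l) D p'.1), map_sum, Finset.sum_apply,
        Finset.sum_apply, mul_sum]
      refine sum_congr rfl fun p'' _ => ?_
      rw [map_smul]
      change κ (p.1 + p.2) * X (dl p''.1 p''.2) p.1 p.2 * fb N w l D p'.1 p''.1 p''.2 =
        κ (p.1 + p.2) * (fb N w l D p'.1 p''.1 p''.2 * X (dl p''.1 p''.2) p.1 p.2)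
      ring
    have e2 : X (fb N w l D p'.1) p.1 p.2 =
        τ D * ∑ j : Fin N, (pI N D * P D) j p'.1 * fb N w l D j p.1 p.2 := by
      rw [hX D p'.1 hb]
      change τ D * (∑ j : Fin N, (pI N D * P D) j p'.1 • fb N w l D j) p.1 p.2 = _
      rw [Finset.sum_apply, Finset.sum_apply]
      rfl
    have e3 : ∑ p'' : Fin N × Fin N, B p p'' * C p'' p' =
        ∑ j : Fin N, fb N w l D j p.1 p.2 * (κ D * τ D * (pI N D * P D) j p'.1) := by
      rw [Fintype.sum_prod_type]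
      refine sum_congr rfl fun j _ => ?_
      have e4 : ∀ t : Fin N, B p (j, t) * C (j, t) p' = if (j : ℕ) + (t : ℕ) = D then
          fb N w l D j p.1 p.2 * (κ D * τ D * (pI N D * P D) j p'.1) else 0 := by
        intro t
        change fb N w l (j + t) j p.1 p.2 * (if (j : ℕ) + t = p'.1 + p'.2 then
          κ (p'.1 + p'.2) * τ (p'.1 + p'.2) * (pI N (p'.1 + p'.2) * P (p'.1 + p'.2)) j p'.1
            else 0) = _
        rw [← hD]
        split_ifs with h
        · rw [h]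
        · rw [mul_zero]
      rw [sum_congr rfl fun t _ => e4 t, sum_fin_eq]
      split_ifs with h
      · rfl
      · rw [pI_mul_apply, if_neg h]
        ring
    rw [e1, e2, e3, mul_sum, mul_sum]
    refine sum_congr rfl fun j _ => ?_
    by_cases h : (p.1 : ℕ) + p.2 = D
    · rw [h]; ring
    · rw [fb_H2 D j p.1 p.2 h]; ring
  have hu : IsUnit B.det := isUnit_iff_ne_zero.2 hdet
  have htr : A.trace = C.trace := by
    have hA : A = B * C * B⁻¹ := by
      rw [← hAB, mul_assoc, Matrix.mul_nonsing_inv B hu, mul_one]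
    rw [hA, trace_mul_comm, ← mul_assoc, Matrix.nonsing_inv_mul B hu, one_mul]
  have hA' : A.trace = ∑ q ∈ range N, ∑ s ∈ range N, κ (q + s) * X (dl q s) q s := by
    rw [← Fin.sum_univ_eq_sum_range (fun q => ∑ s ∈ range N, κ (q + s) * X (dl q s) q s) N]
    unfold Matrix.trace
    rw [Fintype.sum_prod_type]
    refine sum_congr rfl fun q _ => ?_
    rw [← Fin.sum_univ_eq_sum_range (fun s => κ (q + s) * X (dl q s) q s) N]
    rfl
  rw [← hA', htr]
  unfold Matrix.trace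
  rw [Fintype.sum_prod_type]
  have e5 : ∀ D, κ D * τ D * ∑ i, (pI N D * P D).diag i =
      ∑ i : Fin N, κ D * τ D * (pI N D * P D) i i := fun D => by rw [mul_sum]; rfl
  have e5' : ∑ D ∈ range (2 * N - 1), κ D * τ D * ∑ i, (pI N D * P D).diag i =
      ∑ i : Fin N, ∑ D ∈ range (2 * N - 1), κ D * τ D * (pI N D * P D) i i :=
    (Finset.sum_congr rfl fun D _ => e5 D).trans sum_comm
  rw [e5']
  refine Finset.sum_congr rfl fun i _ => ?_
  have e6 : ∀ s : Fin N, C.diag (i, s) =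
      (fun t : ℕ => κ (i + t) * τ (i + t) * (pI N (i + t) * P (i + t)) i i) s := by
    intro s
    change (if (i : ℕ) + s = i + s then _ else _) = _
    rw [if_pos rfl]
  have e6' : ∑ s : Fin N, C.diag (i, s) = ∑ s : Fin N,
      (fun t : ℕ => κ (i + t) * τ (i + t) * (pI N (i + t) * P (i + t)) i i) s :=
    Finset.sum_congr rfl fun s _ => e6 s
  rw [e6', Fin.sum_univ_eq_sum_range
    (fun t : ℕ => κ (i + t) * τ (i + t) * (pI N (i + t) * P (i + t)) i i) N]
  have e7 := Finset.sum_Ico_eq_sum_range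
    (fun D : ℕ => κ D * τ D * (pI N D * P D) i i) i (i + N)
  have e8 : (i : ℕ) + N - i = N := by omega
  rw [e8] at e7
  rw [← e7]
  refine sum_subset ?_ ?_
  · intro D hD
    rw [mem_Ico] at hD
    rw [mem_range]
    have := i.2
    omega
  · intro D _ hD
    rw [mem_Ico] at hD
    rw [pI_mul_apply, if_neg (by omega), mul_zero]

end

theorem rt_ne {N : ℕ} {w : ℂ} (hw : Rt N w) : w ≠ 0 := by
  intro h
  have := hw.nrm
  rw [h, norm_zero] at this
  norm_num at this

/-- **TRG** -/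
theorem trg : S_TRG := by
  intro hJLX hBASF hPT hACT hFT hHATM hGD3 hDEC hDDS hBAS hHV hS1 hS2 hST hTH hNIL hQV hVWP hTAS
    hX12 hSPL hBID N w l hw hl ls m
  have hw0 := rt_ne hw
  have gX : Gd3 N w l (fullt w l m * tw w l ls) :=
    gd3_mul (gd3_fullt hS1 hS2 hST hGD3 hw hw0 hl.ne m) (gd3_tw hS1 hS2 hST hGD3 hw hw0 hl.ne ls)
  have hact := hACT hBID hSPL hX12 hHATM hGD3 hBAS hHV hS1 hS2 hST hTH hNIL N w l hw hl
  rw [hJLX hST N w l hw hl.ne (ftw m ++ bw ls) (letters_lt m ls), opw_all,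
    hPT hDEC hDDS hBAS hTH hNIL hHATM hST hQV hVWP hHV hS1 hS2 N w l hw hl _ gX
      (fun m' D => hat_hom w l (hm3_mul (hm3_fullt w l m) (hm3_tw w l ls)) m' D),
    trace_split (hat w l (fullt w l m * tw w l ls)) (dd N w l) (fun D => ta w l D ^ m)
      (fun D => PM N w l D ls) (hBASF N w l hw hl)
      (fun D i hi => act_all hS1 hS2 hST hGD3 hHATM hTH hNIL hw hw0 hl
        (fun a D i h1 h2 => (hact a D i h1 h2).1) (fun a D i h1 h2 => (hact a D i h1 h2).2)
        (hFT hTAS hDEC hBAS hHATM hGD3 hHV hS1 hS2 hST hTH hNIL hVWP N w l hw hl) D ls m i hi),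
    mul_sum]
  refine sum_congr rfl fun D _ => ?_
  unfold dd trI PM
  ring

end Pool.Agent.Y448.CB
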