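import Pool.Agent.Y472.A.Defs2

/-!
# The operator of a closed 3-braid word: good operators and homogeneity
-/

set_option autoImplicit false

namespace Pool.Agent.Y448.CB

open Finset Pool.Agent.Y472

/-! ### Words -/

theorem L12_mul (A B : V2 →ₗ[ℂ] V2) : L12 (A * B) = L12 A * L12 B := rfl
theorem L23_mul (A B : V2 →ₗ[ℂ] V2) : L23 (A * B) = L23 A * L23 B := rfl
theorem L12_one : L12 1 = 1 := rfl
theorem L23_one : L23 1 = 1 := rfl

theorem L12_pow (A : V2 →ₗ[ℂ] V2) (k : ℕ) : L12 (A ^ k) = L12 A ^ k := by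
  induction k with
  | zero => rw [pow_zero, pow_zero, L12_one]
  | succ k ih => rw [pow_succ, pow_succ, L12_mul, ih]

theorem L23_pow (A : V2 →ₗ[ℂ] V2) (k : ℕ) : L23 (A ^ k) = L23 A ^ k := by
  induction k with
  | zero => rw [pow_zero, pow_zero, L23_one]
  | succ k ih => rw [pow_succ, pow_succ, L23_mul, ih]

section words

variable (w l : ℂ)

theorem opw_append (a b : List (ℕ × Bool)) : opw w l (a ++ b) = opw w l a * opw w l b := by
  simp only [opw, List.map_append, List.prod_append]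

theorem opw_flatten (L : List (List (ℕ × Bool))) :
    opw w l L.flatten = (L.map (opw w l)).prod := by
  induction L with
  | nil => rfl
  | cons a L ih => rw [List.flatten_cons, opw_append, ih, List.map_cons, List.prod_cons]

theorem opw_letters0 (a : ℤ) : opw w l (letters 0 a) = L12 (sz w l a) := by
  unfold opw letters sz
  rw [List.map_replicate, List.prod_replicate]
  by_cases h : 0 ≤ a
  · have h1 : a.natAbs = a.toNat := by omega
    rw [if_pos h, L12_pow, h1]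
    simp [h]
  · have h1 : a.natAbs = (-a).toNat := by omega
    rw [if_neg h, L12_pow, h1]
    simp [h]

theorem opw_letters1 (a : ℤ) : opw w l (letters 1 a) = L23 (sz w l a) := by
  unfold opw letters sz
  rw [List.map_replicate, List.prod_replicate]
  by_cases h : 0 ≤ a
  · have h1 : a.natAbs = a.toNat := by omega
    rw [if_pos h, L23_pow, h1]
    simp [h]
  · have h1 : a.natAbs = (-a).toNat := by omega
    rw [if_neg h, L23_pow, h1]
    simp [h]

theorem opw_ftw (m : ℤ) : opw w l (ftw m) = fullt w l m := by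
  unfold ftw fullt
  rw [opw_flatten, List.map_replicate, List.prod_replicate]
  by_cases h : 0 ≤ m
  · have h1 : m.natAbs = m.toNat := by omega
    rw [if_pos h, h1]
    congr 1
    simp [opw, h, mul_assoc]
  · have h1 : m.natAbs = (-m).toNat := by omega
    rw [if_neg h, h1]
    congr 1
    simp [opw, h, mul_assoc]

/-- the product of the twist regions -/
noncomputable def tw (ls : List (ℤ × ℤ)) : V3 →ₗ[ℂ] V3 :=
  (ls.map fun p => L12 (sz w l p.1) * L23 (sz w l p.2)).prod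

theorem opw_all (m : ℤ) (ls : List (ℤ × ℤ)) :
    opw w l (ftw m ++ bw ls) = fullt w l m * tw w l ls := by
  rw [opw_append, opw_ftw]
  congr 1
  unfold bw tw
  rw [opw_flatten, List.map_map]
  congr 1
  refine List.map_congr_left fun p _ => ?_
  rw [Function.comp_apply, opw_append, opw_letters0, opw_letters1]

theorem letters_lt (m : ℤ) (ls : List (ℤ × ℤ)) : ∀ g ∈ ftw m ++ bw ls, g.1 < 2 := by
  intro g hg
  rw [List.mem_append] at hg
  rcases hg with hg | hg
  · unfold ftw at hg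
    rw [List.mem_flatten] at hg
    obtain ⟨L, hL, hg⟩ := hg
    rw [List.mem_replicate] at hL
    rw [hL.2] at hg
    simp only [List.mem_cons, List.not_mem_nil, or_false] at hg
    rcases hg with h | h | h | h | h | h <;> rw [h] <;> simp
  · unfold bw at hg
    rw [List.mem_flatten] at hg
    obtain ⟨L, hL, hg⟩ := hg
    rw [List.mem_map] at hL
    obtain ⟨p, _, rfl⟩ := hL
    rw [List.mem_append] at hg
    unfold letters at hg
    rw [List.mem_replicate, List.mem_replicate] at hg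
    rcases hg with h | h <;> rw [h.2] <;> simp

end words

/-! ### Good operators -/

section good

variable {N : ℕ} {w l : ℂ}

theorem gd_one : Gd N w l 1 := ⟨fun _ => rfl, fun _ => rfl, fun _ => rfl, fun _ h => h⟩

theorem gd_mul {A B : V2 →ₗ[ℂ] V2} (hA : Gd N w l A) (hB : Gd N w l B) : Gd N w l (A * B) where
  e x := by rw [Module.End.mul_apply, hB.e, hA.e]; rfl
  f x := by rw [Module.End.mul_apply, hB.f, hA.f]; rfl
  k x := by rw [Module.End.mul_apply, hB.k, hA.k]; rfl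
  t x hx := hA.t _ (hB.t _ hx)

theorem gd_pow {A : V2 →ₗ[ℂ] V2} (hA : Gd N w l A) (k : ℕ) : Gd N w l (A ^ k) := by
  induction k with
  | zero => rw [pow_zero]; exact gd_one
  | succ k ih => rw [pow_succ]; exact gd_mul ih hA

theorem gd3_one : Gd3 N w l 1 := ⟨fun _ => rfl, fun _ => rfl, fun _ h => h⟩

theorem gd3_mul {A B : V3 →ₗ[ℂ] V3} (hA : Gd3 N w l A) (hB : Gd3 N w l B) :
    Gd3 N w l (A * B) where
  e x := by rw [Module.End.mul_apply, hB.e, hA.e]; rfl
  f x := by rw [Module.End.mul_apply, hB.f, hA.f]; rfl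
  t x hx := hA.t _ (hB.t _ hx)

theorem gd3_pow {A : V3 →ₗ[ℂ] V3} (hA : Gd3 N w l A) (k : ℕ) : Gd3 N w l (A ^ k) := by
  induction k with
  | zero => rw [pow_zero]; exact gd3_one
  | succ k ih => rw [pow_succ]; exact gd3_mul ih hA

theorem gd_sg (h1 : S_SIG1) (h3 : S_SIGT) (hw : Rt N w) (hw0 : w ≠ 0) (hl : l ≠ 0) :
    Gd N w l (sg w l) := by
  obtain ⟨a1, a2, a3, a4, a5, a6, a7, a8, a9, a10⟩ := h3 N w l hw hl
  exact ⟨(h1 w l hw0 hl).1, (h1 w l hw0 hl).2, a6, a1⟩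

theorem gd_sn (h1 : S_SIG2) (h3 : S_SIGT) (hw : Rt N w) (hw0 : w ≠ 0) (hl : l ≠ 0) :
    Gd N w l (sn w l) := by
  obtain ⟨a1, a2, a3, a4, a5, a6, a7, a8, a9, a10⟩ := h3 N w l hw hl
  exact ⟨(h1 w l hw0 hl).1, (h1 w l hw0 hl).2, a7, a2⟩

theorem gd_sz (h1 : S_SIG1) (h2 : S_SIG2) (h3 : S_SIGT) (hw : Rt N w) (hw0 : w ≠ 0) (hl : l ≠ 0)
    (a : ℤ) : Gd N w l (sz w l a) := by
  unfold sz
  split_ifs
  · exact gd_pow (gd_sg h1 h3 hw hw0 hl) _
  · exact gd_pow (gd_sn h2 h3 hw hw0 hl) _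

theorem gd3_fullt (h1 : S_SIG1) (h2 : S_SIG2) (h3 : S_SIGT) (h4 : S_GD3) (hw : Rt N w)
    (hw0 : w ≠ 0) (hl : l ≠ 0) (m : ℤ) : Gd3 N w l (fullt w l m) := by
  unfold fullt
  have a := gd_sg h1 h3 hw hw0 hl
  have b := gd_sn h2 h3 hw hw0 hl
  obtain ⟨a1, a2⟩ := h4 N w l hw hl _ a
  obtain ⟨b1, b2⟩ := h4 N w l hw hl _ b
  split_ifs
  · exact gd3_pow (gd3_mul (gd3_mul (gd3_mul (gd3_mul (gd3_mul a1 a2) a1) a1) a2) a1) _
  · exact gd3_pow (gd3_mul (gd3_mul (gd3_mul (gd3_mul (gd3_mul b1 b2) b1) b1) b2) b1) _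

theorem gd3_tw (h1 : S_SIG1) (h2 : S_SIG2) (h3 : S_SIGT) (h4 : S_GD3) (hw : Rt N w)
    (hw0 : w ≠ 0) (hl : l ≠ 0) (ls : List (ℤ × ℤ)) : Gd3 N w l (tw w l ls) := by
  unfold tw
  induction ls with
  | nil => exact gd3_one
  | cons p ls ih =>
    rw [List.map_cons, List.prod_cons]
    exact gd3_mul (gd3_mul (h4 N w l hw hl _ (gd_sz h1 h2 h3 hw hw0 hl p.1)).1
      (h4 N w l hw hl _ (gd_sz h1 h2 h3 hw hw0 hl p.2)).2) ih

end good

/-! ### Homogeneity -/

/-- homogeneous vectors -/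
def H2 (D : ℕ) (x : V2) : Prop := ∀ a b, a + b ≠ D → x a b = 0
/-- homogeneous vectors -/
def H3 (D : ℕ) (x : V3) : Prop := ∀ a b c, a + b + c ≠ D → x a b c = 0
/-- homogeneous operators -/
def Hm2 (A : V2 →ₗ[ℂ] V2) : Prop := ∀ D x, H2 D x → H2 D (A x)
/-- homogeneous operators -/
def Hm3 (X : V3 →ₗ[ℂ] V3) : Prop := ∀ D x, H3 D x → H3 D (X x)

theorem hm2_sg (w l : ℂ) : Hm2 (sg w l) := by
  intro D x hx a b hab
  change _ * ∑ n ∈ range (a + 1), _ = (0 : ℂ)
  rw [sum_eq_zero, mul_zero]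
  intro n hn
  rw [mem_range] at hn
  rw [hx (b + n) (a - n) (by omega), mul_zero]

theorem hm2_sn (w l : ℂ) : Hm2 (sn w l) := by
  intro D x hx a b hab
  change _ * ∑ n ∈ range (b + 1), _ = (0 : ℂ)
  rw [sum_eq_zero, mul_zero]
  intro n hn
  rw [mem_range] at hn
  rw [hx (b - n) (a + n) (by omega), mul_zero]

theorem hm2_one : Hm2 1 := fun _ _ h => h
theorem hm2_mul {A B : V2 →ₗ[ℂ] V2} (hA : Hm2 A) (hB : Hm2 B) : Hm2 (A * B) :=
  fun D x h => hA D _ (hB D x h)
theorem hm2_pow {A : V2 →ₗ[ℂ] V2} (hA : Hm2 A) (k : ℕ) : Hm2 (A ^ k) := by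
  induction k with
  | zero => rw [pow_zero]; exact hm2_one
  | succ k ih => rw [pow_succ]; exact hm2_mul ih hA

theorem hm3_one : Hm3 1 := fun _ _ h => h
theorem hm3_mul {A B : V3 →ₗ[ℂ] V3} (hA : Hm3 A) (hB : Hm3 B) : Hm3 (A * B) :=
  fun D x h => hA D _ (hB D x h)
theorem hm3_pow {A : V3 →ₗ[ℂ] V3} (hA : Hm3 A) (k : ℕ) : Hm3 (A ^ k) := by
  induction k with
  | zero => rw [pow_zero]; exact hm3_one
  | succ k ih => rw [pow_succ]; exact hm3_mul ih hA

theorem hm2_zero_app {A : V2 →ₗ[ℂ] V2} {x : V2} (hx : ∀ a b, x a b = 0) (a b : ℕ) :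
    A x a b = 0 := by
  have : x = 0 := by funext a b; exact hx a b
  rw [this, map_zero]; rfl

theorem hm3_L12 {A : V2 →ₗ[ℂ] V2} (hA : Hm2 A) : Hm3 (L12 A) := by
  intro D x hx a b c habc
  change A (fun a b => x a b c) a b = 0
  by_cases hc : c ≤ D
  · exact hA (D - c) _ (fun a' b' h => hx a' b' c (by omega)) a b (by omega)
  · exact hm2_zero_app (fun a' b' => hx a' b' c (by omega)) a b

theorem hm3_L23 {A : V2 →ₗ[ℂ] V2} (hA : Hm2 A) : Hm3 (L23 A) := by
  intro D x hx a b c habc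
  change A (x a) b c = 0
  by_cases hc : a ≤ D
  · exact hA (D - a) _ (fun a' b' h => hx a a' b' (by omega)) b c (by omega)
  · exact hm2_zero_app (fun a' b' => hx a a' b' (by omega)) b c

theorem hm2_sz (w l : ℂ) (a : ℤ) : Hm2 (sz w l a) := by
  unfold sz
  split_ifs
  · exact hm2_pow (hm2_sg w l) _
  · exact hm2_pow (hm2_sn w l) _

theorem hm3_fullt (w l : ℂ) (m : ℤ) : Hm3 (fullt w l m) := by
  unfold fullt
  have a1 := hm3_L12 (hm2_sg w l)
  have a2 := hm3_L23 (hm2_sg w l)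
  have b1 := hm3_L12 (hm2_sn w l)
  have b2 := hm3_L23 (hm2_sn w l)
  split_ifs
  · exact hm3_pow (hm3_mul (hm3_mul (hm3_mul (hm3_mul (hm3_mul a1 a2) a1) a1) a2) a1) _
  · exact hm3_pow (hm3_mul (hm3_mul (hm3_mul (hm3_mul (hm3_mul b1 b2) b1) b1) b2) b1) _

theorem hm3_tw (w l : ℂ) (ls : List (ℤ × ℤ)) : Hm3 (tw w l ls) := by
  unfold tw
  induction ls with
  | nil => exact hm3_one
  | cons p ls ih =>
    rw [List.map_cons, List.prod_cons]
    exact hm3_mul (hm3_mul (hm3_L12 (hm2_sz w l p.1)) (hm3_L23 (hm2_sz w l p.2))) ih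

theorem h3_Th (w l : ℂ) (D : ℕ) (m : V2) (hm : H2 D m) : H3 D (Th w l m) := by
  intro a
  change ∀ b c, a + b + c ≠ D → thA w l a m b c = 0
  induction a with
  | zero => intro b c h; exact hm b c (by omega)
  | succ a ih =>
    intro b c h
    change _ * (lb w l (-1 - b) * KK w l c * thA w l a m (b + 1) c +
      lb w l (-1 - c) * thA w l a m b (c + 1)) = 0
    rw [ih (b + 1) c (by omega), ih b (c + 1) (by omega)]
    ring

theorem hat_hom (w l : ℂ) {X : V3 →ₗ[ℂ] V3} (hX : Hm3 X) (m : V2) (D : ℕ)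
    (hm : ∀ a b, a + b ≠ D → m a b = 0) : ∀ a b, a + b ≠ D → hat w l X m a b = 0 := by
  intro a b h
  exact hX D _ (h3_Th w l D m hm) 0 a b (by omega)

end Pool.Agent.Y448.CB
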