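import Pool.Agent.Y448.CB.Trg1

/-!
# The action on the split bases
-/

set_option autoImplicit false

namespace Pool.Agent.Y448.CB

open Finset Pool.Agent.Y472 Matrix

section

variable {N : ℕ} {w l : ℂ}

theorem qi_zero (w : ℂ) : qi w 0 = 0 := by simp [qi, cb]

theorem qi_N (hw : Rt N w) : qi w N = 0 := by
  unfold qi cb
  rw [zpow_natCast, hw.neg]
  norm_num

theorem fb_zero_of_lt (D j : ℕ) (h : D < j) : fb N w l D j = 0 := by
  funext q s
  unfold fb
  split_ifs with hq
  · have h1 : ∏ t ∈ range j, (cb (l ^ 3 * w ^ (-2 - (D : ℤ) - t)) * qi w ((q : ℤ) - t)) = 0 := by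
      refine prod_eq_zero (i := q) (mem_range.2 (by omega)) ?_
      rw [sub_self, qi_zero, mul_zero]
    rw [h1]
    simp
  · rfl

theorem fb_H2 (D j : ℕ) : ∀ a b, a + b ≠ D → fb N w l D j a b = 0 := by
  intro a b h
  unfold fb
  rw [if_neg]
  exact fun h' => h h'.1

theorem fb_T2 (D j : ℕ) : fb N w l D j ∈ T2 N := by
  intro a b h
  unfold fb
  rw [if_neg]
  intro h'
  omega

/-- the vector with the given coefficients -/
noncomputable def FF (N : ℕ) (w l : ℂ) (D : ℕ) : (Fin N → ℂ) →ₗ[ℂ] V2 where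
  toFun c := ∑ i : Fin N, c i • fb N w l D i
  map_add' x y := by simp only [Pi.add_apply, add_smul, sum_add_distrib]
  map_smul' k x := by simp only [Pi.smul_apply, smul_eq_mul, mul_smul, smul_sum, RingHom.id_apply]

theorem FF_apply (D : ℕ) (c : Fin N → ℂ) : FF N w l D c = ∑ i : Fin N, c i • fb N w l D i := rfl

theorem pI_mulVec (D : ℕ) (c : Fin N → ℂ) (i : Fin N) :
    (pI N D *ᵥ c) i = if (i : ℕ) ≤ D ∧ D < i + N then c i else 0 := by
  unfold pI
  rw [mulVec_diagonal]
  split_ifs <;> simp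

theorem pI_idem (D : ℕ) : pI N D * pI N D = pI N D := by
  unfold pI
  rw [diagonal_mul_diagonal]
  congr 1
  funext i
  split_ifs <;> simp

/-- an operator acting by a matrix -/
theorem act_matrix {A : V2 →ₗ[ℂ] V2} {M : Matrix (Fin N) (Fin N) ℂ} {D : ℕ}
    (h1 : ∀ i : Fin N, D < i + N → A (fb N w l D i) = ∑ j : Fin N, M j i • fb N w l D j)
    (h2 : ∀ i j : Fin N, D < i + N → ¬ D < j + N → M j i = 0) (c : Fin N → ℂ) :
    A (FF N w l D (pI N D *ᵥ c)) = FF N w l D (pI N D *ᵥ (M *ᵥ (pI N D *ᵥ c))) := by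
  rw [FF_apply, FF_apply, map_sum]
  have e1 : ∀ i : Fin N, A ((pI N D *ᵥ c) i • fb N w l D i) =
      ∑ j : Fin N, ((pI N D *ᵥ c) i * M j i) • fb N w l D j := by
    intro i
    rw [map_smul, pI_mulVec]
    split_ifs with hi
    · rw [h1 i hi.2, smul_sum]
      exact sum_congr rfl fun j _ => by rw [smul_smul]
    · simp
  rw [sum_congr rfl fun i _ => e1 i, sum_comm]
  refine sum_congr rfl fun j _ => ?_
  rw [← sum_smul, pI_mulVec]
  by_cases hj : (j : ℕ) ≤ D ∧ D < j + N
  · rw [if_pos hj]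
    congr 1
    exact sum_congr rfl fun i _ => mul_comm _ _
  · rw [if_neg hj, zero_smul]
    by_cases hj1 : (j : ℕ) ≤ D
    · have hj2 : ¬ D < j + N := fun h => hj ⟨hj1, h⟩
      rw [sum_eq_zero, zero_smul]
      intro i _
      rw [pI_mulVec]
      split_ifs with hi
      · rw [h2 i j hi.2 hj2, mul_zero]
      · rw [zero_mul]
    · rw [fb_zero_of_lt D j (by omega), smul_zero]

theorem sum_Ico_fin {V : Type} [AddCommMonoid V] (i N : ℕ) (g : ℕ → V) :
    ∑ j ∈ Ico i N, g j = ∑ j : Fin N, if i ≤ (j : ℕ) then g j else 0 := by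
  rw [Fin.sum_univ_eq_sum_range (fun j => if i ≤ j then g j else 0) N, ← sum_filter]
  congr 1
  ext j
  simp only [mem_Ico, mem_filter, mem_range]
  tauto

theorem sum_range_fin {V : Type} [AddCommMonoid V] (i : ℕ) (hi : i < N) (g : ℕ → V) :
    ∑ j ∈ range (i + 1), g j = ∑ j : Fin N, if (j : ℕ) ≤ i then g j else 0 := by
  rw [Fin.sum_univ_eq_sum_range (fun j => if j ≤ i then g j else 0) N, ← sum_filter]
  congr 1
  ext j
  simp only [mem_filter, mem_range]
  omega

theorem act_A (hX : ∀ (a : ℤ) (D i : ℕ), D < i + N → i < N →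
      hat w l (L12 (sz w l a)) (fb N w l D i) = ∑ j ∈ Ico i N, gd w l a i j • fb N w l D j)
    (a : ℤ) (D : ℕ) (c : Fin N → ℂ) :
    hat w l (L12 (sz w l a)) (FF N w l D (pI N D *ᵥ c)) =
      FF N w l D (pI N D *ᵥ (MA N w l a *ᵥ (pI N D *ᵥ c))) := by
  apply act_matrix
  · intro i hi
    rw [hX a D i hi i.2, sum_Ico_fin]
    refine sum_congr rfl fun j _ => ?_
    simp only [MA, Fin.le_def]
    split_ifs
    · rfl
    · rw [zero_smul]
  · intro i j hi hj
    simp only [MA, Fin.le_def]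
    rw [if_neg]
    omega

theorem act_B (hw : Rt N w) (hX : ∀ (a : ℤ) (D i : ℕ), D < i + N → i < N →
      hat w l (L23 (sz w l a)) (fb N w l D i) =
        ∑ j ∈ range (i + 1), ((∏ t ∈ Ioc j i, ph w l D t) * gd w l a j i) • fb N w l D j)
    (a : ℤ) (D : ℕ) (c : Fin N → ℂ) :
    hat w l (L23 (sz w l a)) (FF N w l D (pI N D *ᵥ c)) =
      FF N w l D (pI N D *ᵥ (MB N w l D a *ᵥ (pI N D *ᵥ c))) := by
  apply act_matrix
  · intro i hi
    rw [hX a D i hi i.2, sum_range_fin i i.2]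
    refine sum_congr rfl fun j _ => ?_
    simp only [MB, Fin.le_def]
    split_ifs
    · rfl
    · rw [zero_smul]
  · intro i j hi hj
    simp only [MB, Fin.le_def]
    split_ifs with hji
    · rw [prod_eq_zero (i := D + 1 - N), zero_mul]
      · rw [mem_Ioc]
        omega
      · unfold ph
        have h1 : ((D : ℤ) + 1 - ((D + 1 - N : ℕ) : ℤ)) = N := by omega
        rw [h1, qi_N hw]
        ring
    · rfl

end

end Pool.Agent.Y448.CB
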